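import Mathlib
import Pool.Agent.H18.Forest

namespace Pool.Agent.Results.MP_e7d22a_nt.AlmostSure

open Pool.Agent.H18.Forest MeasureTheory

/-- dense forests, with a visibility function on `(0,1)` -/
def IsDenseForest (Y : Set ℂ) : Prop :=
  ∃ V : ℝ → ℝ, ∀ ε ∈ Set.Ioo (0 : ℝ) 1, 0 < V ε ∧ ∀ a b : ℂ, dist a b = V ε →
    ∃ p ∈ segment ℝ a b, ∃ q ∈ Y, dist p q ≤ ε

theorem of_forest {Y : Set ℂ} (h : DenseForest Y) : IsDenseForest Y := by
  have h1 : ∀ ε : ℝ, ∃ V : ℝ, ε ∈ Set.Ioo (0 : ℝ) 1 → 0 < V ∧ ∀ a b : ℂ, dist a b = V →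
      ∃ p ∈ segment ℝ a b, ∃ q ∈ Y, dist p q ≤ ε := by
    intro ε
    by_cases hε : 0 < ε
    · obtain ⟨V, hV, h2⟩ := h ε hε
      refine ⟨V, fun _ => ⟨hV, fun a b hab => ?_⟩⟩
      obtain ⟨p, hp, q, hq, h3⟩ := h2 a b hab
      exact ⟨p, hp, q, hq, h3.le⟩
    · exact ⟨1, fun h2 => absurd h2.1 hε⟩
  choose V hV using h1
  exact ⟨V, hV⟩

theorem main (k : ℕ) (hk : 2 ≤ k) :
    ∀ᵐ p : (Fin k → ℝ) × (Fin k → ℂ), IsDenseForest (TBG p.1 p.2) := by
  let i : Fin k := ⟨0, by omega⟩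
  let j : Fin k := ⟨1, by omega⟩
  have hij : i ≠ j := by simp [i, j]
  have : (volume : Measure ((Fin k → ℝ) × (Fin k → ℂ))).IsAddHaarMeasure :=
    Measure.prod.instIsAddHaarMeasure _ _
  have h1 : ∀ c ∈ Bad, ∀ᵐ p : (Fin k → ℝ) × (Fin k → ℂ), p.1 j - p.1 i ≠ c := by
    intro c _
    let f : ((Fin k → ℝ) × (Fin k → ℂ)) →ₗ[ℝ] ℝ :=
      { toFun := fun p => p.1 j - p.1 i
        map_add' := fun p q => by simp; ring
        map_smul' := fun c p => by simp; ring }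
    have hf : LinearMap.ker f ≠ ⊤ := by
      intro h
      have : ((Pi.single j 1, 0) : (Fin k → ℝ) × (Fin k → ℂ)) ∈ LinearMap.ker f := by
        rw [h]; trivial
      simp [f, hij] at this
    have h0 := Measure.addHaar_submodule volume (LinearMap.ker f) hf
    rw [← measure_preimage_add_right volume
      (-((Pi.single j c, 0) : (Fin k → ℝ) × (Fin k → ℂ)))] at h0
    rw [ae_iff]
    refine measure_mono_null (fun p hp => ?_) h0
    simp only [ne_eq, not_not, Set.mem_ofPred_eq] at hp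
    simp [f, hij]
    linarith
  filter_upwards [(ae_ball_iff bad_countable).mpr h1] with p hp
  exact of_forest (forest_of_good _ _ i j (fun h => hp _ h rfl))

theorem result :
    (∃ k : ℕ, 1 ≤ k ∧ ∀ᵐ p : (Fin k → ℝ) × (Fin k → ℂ), IsDenseForest (TBG p.1 p.2)) ∧
    ∀ k : ℕ, 2 ≤ k → ∀ᵐ p : (Fin k → ℝ) × (Fin k → ℂ), IsDenseForest (TBG p.1 p.2) :=
  ⟨⟨2, by norm_num, main 2 le_rfl⟩, main⟩

end Pool.Agent.Results.MP_e7d22a_nt.AlmostSure
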